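import Mathlib
import Pool.Agent.R698.Periodic

set_option autoImplicit false

/-!
# MP_a4b099_al: a periodic ring with a non-periodic matrix ring

The starting library (`Pool.Agent.H22R2`) contains a nil ideal `D` of an algebra over each countable
field with a non-nilpotent `3 × 3` matrix over `D`. Over the field with `p` elements the sums of
scalars and elements of `D` form a periodic ring, since each of its elements is algebraic over
a finite field. The powers of the non-nilpotent matrix `M` over `D` are all different: if
`M ^ m = M ^ k`, `k < m`, then `(1 - M ^ (m - k)) M ^ k = 0`, and `1 - M ^ (m - k)` is invertible.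
-/

/-- For every prime `p` there are a ring `R` with `p = 0` in `R` which is periodic (each element has two
equal powers with different positive exponents) and a `3 × 3` matrix over `R` all of whose positive
powers are different. -/
theorem Pool.Agent.Results.MP_a4b099_al.NotPeriodic.result (p : ℕ) (hp : p.Prime) :
    ∃ (R : Type) (_ : Ring R), (p : R) = 0 ∧
      (∀ x : R, ∃ m k : ℕ, 1 ≤ m ∧ 1 ≤ k ∧ m ≠ k ∧ x ^ m = x ^ k) ∧
      ∃ A : Matrix (Fin 3) (Fin 3) R, ∀ m k : ℕ, 1 ≤ m → 1 ≤ k → m ≠ k → A ^ m ≠ A ^ k := by
  have : Fact p.Prime := ⟨hp⟩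
  obtain ⟨R, _, _, D, h1, h2, M, h3, h4⟩ := Pool.Agent.R698.exists_periodic p
  refine ⟨R, inferInstance, ?_, fun x => ?_, M, fun m k _ _ hmk h => h4 ?_⟩
  · have h : algebraMap (ZMod p) R (p : ZMod p) = 0 := by
      rw [ZMod.natCast_self, map_zero]
    rwa [map_natCast] at h
  · obtain ⟨m, k, h5, h6, h7⟩ := h1 x
    exact ⟨m, k, by omega, h5, by omega, h7⟩
  · rcases lt_or_gt_of_ne hmk with hlt | hlt
    · exact Pool.Agent.R698.nilp_of_pow_eq D h2 M h3 k m hlt h.symm
    · exact Pool.Agent.R698.nilp_of_pow_eq D h2 M h3 m k hlt h
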